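import Pool.Agent.Helper51.BW.Spec

/-!
# Blueprint BW, part NET
-/

set_option autoImplicit false

namespace Pool.Agent.Helper4.BW.NET

open Pool.Agent.Helper51.BW

theorem en_add {α : Type} (U : Finset α) (c : α → α → ℝ) (hsym : ∀ z z', c z z' = c z' z)
    (q δ : α → ℝ) : En U c (fun z => q z + δ z) =
      En U c q - 2 * ∑ z ∈ U, δ z * ∑ z' ∈ U, c z z' * (q z' - q z) + En U c δ := by
  have h1 : ∑ z ∈ U, ∑ z' ∈ U, c z z' * ((q z' - q z) * δ z') =
      - ∑ z ∈ U, δ z * ∑ z' ∈ U, c z z' * (q z' - q z) := by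
    rw [Finset.sum_comm, ← Finset.sum_neg_distrib]
    refine Finset.sum_congr rfl fun a _ => ?_
    rw [Finset.mul_sum, ← Finset.sum_neg_distrib]
    refine Finset.sum_congr rfl fun b _ => ?_
    rw [hsym b a]
    ring
  have h2 : ∑ z ∈ U, ∑ z' ∈ U, c z z' * ((q z' - q z) * δ z) =
      ∑ z ∈ U, δ z * ∑ z' ∈ U, c z z' * (q z' - q z) := by
    refine Finset.sum_congr rfl fun a _ => ?_
    rw [Finset.mul_sum]
    refine Finset.sum_congr rfl fun b _ => ?_
    ring
  have h3 : ∑ z ∈ U, ∑ z' ∈ U, c z z' * ((q z' + δ z') - (q z + δ z)) ^ 2 =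
      ∑ z ∈ U, ∑ z' ∈ U, c z z' * (q z' - q z) ^ 2 +
        2 * (∑ z ∈ U, ∑ z' ∈ U, c z z' * ((q z' - q z) * δ z')) -
        2 * (∑ z ∈ U, ∑ z' ∈ U, c z z' * ((q z' - q z) * δ z)) +
        ∑ z ∈ U, ∑ z' ∈ U, c z z' * (δ z' - δ z) ^ 2 := by
    simp only [Finset.mul_sum, ← Finset.sum_add_distrib, ← Finset.sum_sub_distrib]
    refine Finset.sum_congr rfl fun a _ => Finset.sum_congr rfl fun b _ => ?_
    ring
  unfold En
  rw [h3, h1, h2]
  ring

theorem en_le {α : Type} (U : Finset α) (c : α → α → ℝ) (hsym : ∀ z z', c z z' = c z' z)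
    (hc : ∀ z z', 0 ≤ c z z') (δ : α → ℝ) :
    En U c δ ≤ 2 * ∑ z ∈ U, δ z ^ 2 * ∑ z' ∈ U, c z z' := by
  have h1 : ∑ z ∈ U, ∑ z' ∈ U, c z z' * δ z' ^ 2 = ∑ z ∈ U, δ z ^ 2 * ∑ z' ∈ U, c z z' := by
    rw [Finset.sum_comm]
    refine Finset.sum_congr rfl fun a _ => ?_
    rw [Finset.mul_sum]
    refine Finset.sum_congr rfl fun b _ => ?_
    rw [hsym b a]
    ring
  have h2 : ∑ z ∈ U, ∑ z' ∈ U, c z z' * δ z ^ 2 = ∑ z ∈ U, δ z ^ 2 * ∑ z' ∈ U, c z z' := by
    refine Finset.sum_congr rfl fun a _ => ?_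
    rw [Finset.mul_sum]
    refine Finset.sum_congr rfl fun b _ => ?_
    ring
  have h3 : ∑ z ∈ U, ∑ z' ∈ U, c z z' * (δ z' - δ z) ^ 2 ≤
      2 * (∑ z ∈ U, ∑ z' ∈ U, c z z' * δ z' ^ 2) + 2 * ∑ z ∈ U, ∑ z' ∈ U, c z z' * δ z ^ 2 := by
    simp only [Finset.mul_sum, ← Finset.sum_add_distrib]
    refine Finset.sum_le_sum fun a _ => Finset.sum_le_sum fun b _ => ?_
    have := mul_nonneg (hc a b) (sq_nonneg (δ b + δ a))
    nlinarith
  unfold En
  rw [h1, h2] at h3
  linarith

theorem clamp_sq (a b : ℝ) : (max 0 (min 1 b) - max 0 (min 1 a)) ^ 2 ≤ (b - a) ^ 2 := by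
  have h1 : |max 0 (min 1 b) - max 0 (min 1 a)| ≤ |min 1 b - min 1 a| := by
    have := abs_max_sub_max_le_abs (min 1 b) (min 1 a) 0
    rw [max_comm 0 (min 1 b), max_comm 0 (min 1 a)]
    exact this
  have h2 : |min 1 b - min 1 a| ≤ |b - a| := by
    have := abs_min_sub_min_le_max 1 b 1 a
    simpa using this
  exact sq_le_sq.mpr (h1.trans h2)

theorem main : S_NET := by
  intro α U B c x hsym hc hxU hBU hxB
  classical
  -- the energy of a function on `U`
  set E : (U → ℝ) → ℝ := fun g => (∑ z : U, ∑ z' : U, c z z' * (g z' - g z) ^ 2) / 2 with hE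
  have hEn : ∀ f : α → ℝ, En U c f = E (fun z => f z) := by
    intro f
    simp only [hE, En]
    congr 1
    rw [← Finset.sum_coe_sort U (fun z => ∑ z' ∈ U, c z z' * (f z' - f z) ^ 2)]
    refine Finset.sum_congr rfl fun z _ => ?_
    rw [← Finset.sum_coe_sort U (fun z' => c z z' * (f z' - f z) ^ 2)]
  have hcont : Continuous E := by
    simp only [hE]
    fun_prop
  set S : U → Set ℝ := fun z => if (z : α) = x then {0} else if (z : α) ∈ B then {1}
    else Set.Icc 0 1 with hS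
  have hScomp : ∀ z, IsCompact (S z) := by
    intro z
    simp only [hS]
    split_ifs
    · exact isCompact_singleton
    · exact isCompact_singleton
    · exact isCompact_Icc
  have hKc : IsCompact (Set.pi Set.univ S) := isCompact_univ_pi hScomp
  have hmem : ∀ f : α → ℝ, f x = 0 → (∀ z ∈ B, f z = 1) → (∀ z, 0 ≤ f z ∧ f z ≤ 1) →
      (fun z : U => f z) ∈ Set.pi Set.univ S := by
    intro f hfx hfB hf01 z _
    simp only [hS]
    split_ifs with h1 h2
    · rw [h1, hfx]; rfl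
    · rw [hfB _ h2]; rfl
    · exact ⟨(hf01 _).1, (hf01 _).2⟩
  have hne : (Set.pi Set.univ S).Nonempty := by
    refine ⟨_, hmem (fun z => if z ∈ B then 1 else 0) (by simp [hxB])
      (fun z hz => by simp [hz]) fun z => ?_⟩
    split_ifs <;> norm_num
  obtain ⟨g, hgK, hgmin⟩ := hKc.exists_isMinOn hne hcont.continuousOn
  set q : α → ℝ := fun z => if h : z ∈ U then g ⟨z, h⟩ else 0 with hq
  have hqg : (fun z : U => q z) = g := by
    funext z
    simp only [hq]
    rw [dif_pos z.2]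
  have hS01 : ∀ (z : U) (r : ℝ), r ∈ S z → 0 ≤ r ∧ r ≤ 1 := by
    intro z r hr
    simp only [hS] at hr
    split_ifs at hr with h1 h2
    · rw [Set.mem_singleton_iff.mp hr]; norm_num
    · rw [Set.mem_singleton_iff.mp hr]; norm_num
    · exact hr
  have hq01 : ∀ z, 0 ≤ q z ∧ q z ≤ 1 := by
    intro z
    simp only [hq]
    split_ifs with h
    · exact hS01 _ _ (hgK ⟨z, h⟩ (Set.mem_univ _))
    · norm_num
  have hqx : q x = 0 := by
    have h1 := hgK ⟨x, hxU⟩ (Set.mem_univ _)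
    simp only [hS, if_true] at h1
    simp only [hq]
    rw [dif_pos hxU]
    exact h1
  have hqB : ∀ z ∈ B, q z = 1 := by
    intro z hz
    have hzx : z ≠ x := fun h => hxB (h ▸ hz)
    have h1 := hgK ⟨z, hBU hz⟩ (Set.mem_univ _)
    simp only [hS, if_neg hzx, if_pos hz] at h1
    simp only [hq]
    rw [dif_pos (hBU hz)]
    exact h1
  have hmin : ∀ f : α → ℝ, f x = 0 → (∀ z ∈ B, f z = 1) → En U c q ≤ En U c f := by
    intro f hfx hfB
    have h1 : En U c (fun z => max 0 (min 1 (f z))) ≤ En U c f := by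
      unfold En
      apply div_le_div_of_nonneg_right _ (by norm_num)
      refine Finset.sum_le_sum fun a _ => Finset.sum_le_sum fun b _ => ?_
      exact mul_le_mul_of_nonneg_left (clamp_sq _ _) (hc _ _)
    refine le_trans ?_ h1
    rw [hEn, hEn, hqg]
    apply hgmin
    apply hmem (fun z => max 0 (min 1 (f z)))
    · simp [hfx]
    · intro z hz
      simp [hfB z hz]
    · intro z
      exact ⟨le_max_left _ _, max_le (by norm_num) (min_le_left _ _)⟩
  refine ⟨q, hq01, hqx, hqB, ?_, hmin⟩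
  intro z0 hz0 hzx hzB
  set A := ∑ z' ∈ U, c z0 z' * (q z' - q z0) with hA
  set C := ∑ z' ∈ U, c z0 z' with hC
  have hC0 : 0 ≤ C := Finset.sum_nonneg fun b _ => hc _ _
  have key : ∀ s : ℝ, s * A ≤ s ^ 2 * C := by
    intro s
    set δ : α → ℝ := fun z => if z = z0 then s else 0 with hδ
    have h1 : En U c q ≤ En U c (fun z => q z + δ z) := by
      apply hmin
      · simp only [hδ]
        rw [if_neg (fun h => hzx h.symm), hqx]
        ring
      · intro z hz
        simp only [hδ]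
        rw [if_neg (fun h : z = z0 => hzB (by rw [← h]; exact hz)), hqB z hz]
        ring
    rw [en_add U c hsym] at h1
    have h2 := en_le U c hsym hc δ
    have h3 : ∑ z ∈ U, δ z * ∑ z' ∈ U, c z z' * (q z' - q z) = s * A := by
      rw [Finset.sum_eq_single z0]
      · simp only [hδ, if_true, hA]
      · intro b _ hb
        simp only [hδ, if_neg hb, zero_mul]
      · intro h
        exact absurd hz0 h
    have h4 : ∑ z ∈ U, δ z ^ 2 * ∑ z' ∈ U, c z z' = s ^ 2 * C := by
      rw [Finset.sum_eq_single z0]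
      · simp only [hδ, if_true, hC]
      · intro b _ hb
        simp only [hδ, if_neg hb]
        ring
      · intro h
        exact absurd hz0 h
    rw [h3] at h1
    rw [h4] at h2
    linarith
  have h5 := key (A / (C + 1))
  have hC1 : 0 < C + 1 := by linarith
  have h6 : A ^ 2 * (C + 1) ≤ A ^ 2 * C := by
    have e1 : A / (C + 1) * A = A ^ 2 * (C + 1) / (C + 1) ^ 2 := by
      field_simp
    have e2 : (A / (C + 1)) ^ 2 * C = A ^ 2 * C / (C + 1) ^ 2 := by
      field_simp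
    rw [e1, e2, div_le_div_iff_of_pos_right (by positivity)] at h5
    exact h5
  have h7 : A ^ 2 ≤ 0 := by nlinarith
  exact pow_eq_zero_iff (by norm_num) |>.mp (le_antisymm h7 (sq_nonneg A))

end Pool.Agent.Helper4.BW.NET
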