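import Pool.Agent.Helper51.BW.Spec

/-!
# Blueprint BW, part PTH
-/

set_option autoImplicit false

namespace Pool.Agent.Helper4.BW.PTH

open Pool.Agent.Helper51.BW

theorem step_le {α : Type} (U : Finset α) (c : α → α → ℝ) (q : α → ℝ) (c0 : ℝ)
    (hsym : ∀ z z', c z z' = c z' z) (hc : ∀ z z', 0 ≤ c z z') (h0 : 0 < c0) {z z' : α}
    (hz : z ∈ U) (hz' : z' ∈ U) (hzz : c0 ≤ c z z') :
    |q z' - q z| ≤ Real.sqrt (En U c q / c0) := by
  classical
  apply Real.abs_le_sqrt
  rw [le_div_iff₀ h0]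
  by_cases he : z = z'
  · subst he
    have : 0 ≤ En U c q := by
      unfold En
      apply div_nonneg _ (by norm_num)
      exact Finset.sum_nonneg fun a _ => Finset.sum_nonneg fun b _ =>
        mul_nonneg (hc _ _) (sq_nonneg _)
    simpa using this
  · have hnn : ∀ a b, 0 ≤ c a b * (q b - q a) ^ 2 := fun a b => mul_nonneg (hc _ _) (sq_nonneg _)
    have h1 : c z z' * (q z' - q z) ^ 2 ≤ ∑ b ∈ U, c z b * (q b - q z) ^ 2 :=
      Finset.single_le_sum (f := fun b => c z b * (q b - q z) ^ 2) (fun b _ => hnn z b) hz'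
    have h2 : c z' z * (q z - q z') ^ 2 ≤ ∑ b ∈ U, c z' b * (q b - q z') ^ 2 :=
      Finset.single_le_sum (f := fun b => c z' b * (q b - q z') ^ 2) (fun b _ => hnn z' b) hz
    have h3 : ∑ a ∈ ({z, z'} : Finset α), ∑ b ∈ U, c a b * (q b - q a) ^ 2 ≤
        ∑ a ∈ U, ∑ b ∈ U, c a b * (q b - q a) ^ 2 := by
      apply Finset.sum_le_sum_of_subset_of_nonneg
      · intro a ha
        simp only [Finset.mem_insert, Finset.mem_singleton] at ha
        rcases ha with rfl | rfl
        · exact hz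
        · exact hz'
      · intro a _ _
        exact Finset.sum_nonneg fun b _ => hnn a b
    rw [Finset.sum_pair he] at h3
    have h4 : c z' z * (q z - q z') ^ 2 = c z z' * (q z' - q z) ^ 2 := by
      rw [hsym z' z]; ring
    have h5 : c0 * (q z' - q z) ^ 2 ≤ c z z' * (q z' - q z) ^ 2 :=
      mul_le_mul_of_nonneg_right hzz (sq_nonneg _)
    unfold En
    rw [le_div_iff₀ (by norm_num : (0:ℝ) < 2)]
    nlinarith

theorem levels {α : Type} (K : Finset α) (q : α → ℝ) (σ : ℝ) (R : α → α → Prop)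
    (hR : ∀ z z', R z z' → z ∈ K ∧ z' ∈ K ∧ |q z' - q z| ≤ σ) {w x : α}
    (hch : Relation.ReflTransGen R w x) (θ : ℝ) (h1 : q w ≤ θ) :
    θ < q x → ∃ z ∈ K, θ < q z ∧ q z ≤ θ + σ := by
  induction hch with
  | refl => intro h2; exact absurd h2 (not_lt.mpr h1)
  | @tail y x' _ hbc ih =>
    intro h2
    by_cases hy : θ < q y
    · exact ih hy
    · obtain ⟨_, hx, hd⟩ := hR _ _ hbc
      refine ⟨x', hx, h2, ?_⟩
      have := le_abs_self (q x' - q y)
      linarith [not_lt.mp hy]

theorem half {α : Type} (K : Finset α) (q : α → ℝ) (σ : ℝ) (hσ : 0 ≤ σ) (R : α → α → Prop)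
    (hR : ∀ z z', R z z' → z ∈ K ∧ z' ∈ K ∧ |q z' - q z| ≤ σ) {w x : α} (hw : w ∈ K)
    (hch : Relation.ReflTransGen R w x) : q x - q w ≤ K.card * σ := by
  by_contra hcon
  push Not at hcon
  have key : ∀ i : ℕ, i ≤ K.card → ∃ z ∈ K, (1 ≤ i → q w + ((i : ℝ) - 1) * σ < q z) ∧
      q z ≤ q w + i * σ := by
    intro i hi
    rcases Nat.eq_zero_or_pos i with rfl | hpos
    · exact ⟨w, hw, by simp, by simp⟩
    · have h1 : q w ≤ q w + ((i : ℝ) - 1) * σ := by
        have : (1 : ℝ) ≤ i := by exact_mod_cast hpos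
        nlinarith
      have h2 : q w + ((i : ℝ) - 1) * σ < q x := by
        have : (i : ℝ) ≤ K.card := by exact_mod_cast hi
        nlinarith
      obtain ⟨z, hz, h3, h4⟩ := levels K q σ R hR hch _ h1 h2
      exact ⟨z, hz, fun _ => h3, by linarith⟩
  haveI : Nonempty α := ⟨w⟩
  choose! f hfK hf1 hf2 using key
  have hinj : Function.Injective (fun i : Fin (K.card + 1) => (⟨f i, hfK i (by omega)⟩ : K)) := by
    have hlt : ∀ i j : ℕ, i < j → j ≤ K.card → q (f i) < q (f j) := by
      intro i j hij hj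
      have h1 := hf2 i (by omega)
      have h2 := hf1 j hj (by omega)
      have h3 : (i : ℝ) ≤ (j : ℝ) - 1 := by
        have : (i : ℝ) + 1 ≤ j := by exact_mod_cast hij
        linarith
      nlinarith
    intro i j hij
    have h : f i = f j := congrArg Subtype.val hij
    rcases lt_trichotomy (i : ℕ) j with h1 | h1 | h1
    · have := hlt i j h1 (by omega)
      rw [h] at this
      exact absurd this (lt_irrefl _)
    · exact Fin.ext h1
    · have := hlt j i h1 (by omega)
      rw [h] at this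
      exact absurd this (lt_irrefl _)
  have := Fintype.card_le_of_injective _ hinj
  simp at this

theorem main : S_PTH := by
  intro α U K c q c0 w x hsym hc h0 hKU hw hch
  set σ := Real.sqrt (En U c q / c0) with hσ
  have hR : ∀ z z', (z ∈ K ∧ z' ∈ K ∧ c0 ≤ c z z') → z ∈ K ∧ z' ∈ K ∧ |q z' - q z| ≤ σ :=
    fun z z' h => ⟨h.1, h.2.1, step_le U c q c0 hsym hc h0 (hKU h.1) (hKU h.2.1) h.2.2⟩
  have hR' : ∀ z z', (z ∈ K ∧ z' ∈ K ∧ c0 ≤ c z z') →
      z ∈ K ∧ z' ∈ K ∧ |(fun a => - q a) z' - (fun a => - q a) z| ≤ σ := by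
    intro z z' h
    refine ⟨h.1, h.2.1, ?_⟩
    have h1 := (hR z z' h).2.2
    have h2 : (fun a => - q a) z' - (fun a => - q a) z = -(q z' - q z) := by
      change - q z' - - q z = _
      ring
    rw [h2, abs_neg]
    exact h1
  have h1 := half K q σ (Real.sqrt_nonneg _) _ hR hw hch
  have h2 := half K (fun a => - q a) σ (Real.sqrt_nonneg _) _ hR' hw hch
  rw [abs_le]
  constructor
  · linarith
  · have : - q x - - q w ≤ K.card * σ := h2
    linarith

end Pool.Agent.Helper4.BW.PTH
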